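import Pool.Agent.MP_39ed1d_co.H76.Wind

/-! Part A: the flow polynomial of the complete graph and the powers of the deformed
exponential. -/

open Pool.Agent.MP_39ed1d_co.H76 Finset

namespace Pool.Agent.MP_39ed1d_co.H78

theorem prod_edges {M : Type} [CommMonoid M] (n : ℕ) (g : Fin n → Fin n → M) :
    ∏ e : {p : Fin n × Fin n // p.1 < p.2}, g e.1.1 e.1.2 =
      ∏ i, ∏ j, if i < j then g i j else 1 := by
  rw [← Fintype.prod_prod_type', ← prod_filter]
  exact (prod_subtype (univ.filter fun p : Fin n × Fin n => p.1 < p.2) (by simp)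
    fun p => g p.1 p.2).symm

theorem prod_tri (x : ℂ) (n : ℕ) :
    (∏ i : Fin n, ∏ j : Fin n, if i < j then x else 1) = x ^ n.choose 2 := by
  induction n with
  | zero => simp
  | succ n ih =>
    have h3 : (n + 1).choose 2 = n + n.choose 2 := by
      rw [Nat.choose_succ_succ' n 1, Nat.choose_one_right]
    simp [Fin.prod_univ_succ, ih, h3, pow_add]

open PowerSeries in
theorem deriv_prod {κ : Type} [DecidableEq κ] (s : Finset κ) (f : κ → ℂ⟦X⟧) :
    d⁄dX ℂ (∏ b ∈ s, f b) = ∑ b ∈ s, (∏ b' ∈ s.erase b, f b') * d⁄dX ℂ (f b) := by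
  induction s using Finset.induction_on with
  | empty => simp
  | insert a s ha ih =>
    rw [prod_insert ha, sum_insert ha, Derivation.leibniz, ih, erase_insert ha, smul_eq_mul,
      smul_eq_mul, mul_sum, add_comm]
    congr 1
    refine sum_congr rfl fun b hb => ?_
    rw [erase_insert_of_ne (fun e : a = b => ha (e ▸ hb)), prod_insert (fun h => ha (mem_of_mem_erase h)),
      mul_assoc]

open PowerSeries in
theorem colour_sum {κ : Type} [Fintype κ] [DecidableEq κ] (y : ℂ) (n : ℕ) (x : κ → ℂ) :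
    ∑ c : Fin n → κ, (∏ i, x (c i)) * ∏ i, ∏ j, (if i < j then (if c i = c j then y else 1) else 1) =
      n.factorial * coeff n (∏ b, rescale (x b) (mk (ee y))) := by
  induction n generalizing x with
  | zero =>
    have : ∀ b, constantCoeff (rescale (x b) (mk (ee y))) = 1 := fun b => by
      rw [← coeff_zero_eq_constantCoeff_apply, coeff_rescale, coeff_mk, ee_zero]; simp
    simp [map_prod, this]
  | succ n ih =>
    have hd : d⁄dX ℂ (∏ b, rescale (x b) (mk (ee y))) =
        ∑ b, C (x b) * ∏ b', rescale (Function.update x b (y * x b) b') (mk (ee y)) := by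
      rw [deriv_prod]
      refine sum_congr rfl fun b _ => ?_
      rw [deriv_rescale, deriv_ee, rescale_rescale, ← mul_prod_erase _ _ (mem_univ b),
        Function.update_self, prod_congr rfl (s₁ := univ.erase b)
          (f := fun b' => rescale (Function.update x b (y * x b) b') (mk (ee y)))
          (g := fun b' => rescale (x b') (mk (ee y)))
          fun b' hb' => by rw [Function.update_of_ne (ne_of_mem_erase hb')]]
      ring
    have h1 := congrArg (coeff n) hd
    rw [coeff_derivative, map_sum] at h1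
    simp only [coeff_C_mul] at h1
    rw [Nat.factorial_succ]
    push_cast
    rw [mul_comm ((n : ℂ) + 1), mul_assoc, mul_comm ((n : ℂ) + 1), h1, mul_sum,
      ← (Fin.consEquiv fun _ => κ).sum_comp, Fintype.sum_prod_type]
    refine sum_congr rfl fun b _ => ?_
    rw [mul_left_comm, ← ih, mul_sum]
    refine sum_congr rfl fun c _ => ?_
    have : ∏ i, Function.update x b (y * x b) (c i) =
        (∏ i, x (c i)) * ∏ i, if b = c i then y else 1 := by
      rw [← prod_mul_distrib]
      refine prod_congr rfl fun i _ => ?_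
      by_cases h : b = c i
      · simp [h, mul_comm]
      · simp [h, Function.update_of_ne (Ne.symm h)]
    rw [this]
    simp [Fin.prod_univ_succ, Fin.consEquiv]
    ring

open PowerSeries in
theorem pow_ee (y : ℂ) (q : ℕ) : (mk (ee y)) ^ q = mk (WW q y) := by
  refine ps_unique (C (q : ℂ) * mk (fun k => (y - 1) ^ k * aa y k)) _ _ ?_ (ps_WW q y) ?_
  · rw [Derivation.leibniz_pow, ps_logderiv]
    rcases q with _ | q
    · simp
    · simp only [Nat.add_sub_cancel, smul_eq_mul, nsmul_eq_mul, map_natCast]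
      ring
  · simp [← coeff_zero_eq_constantCoeff_apply, ee_zero, WW_zero, map_pow]

theorem nflow_mul (n q : ℕ) (hq : 1 ≤ q) :
    (nflow n q : ℂ) * (q : ℂ) ^ n = (-1) ^ (n.choose 2) * n.factorial * WW q (1 - q) n := by
  classical
  have : NeZero q := ⟨by omega⟩
  let ψ := ZMod.stdAddChar (N := q)
  have hψ : ∀ b : ZMod q, ∑ x, ψ (x * b) = if b = 0 then (q : ℂ) else 0 := fun b => by
    rw [AddChar.sum_mulShift b (ZMod.isPrimitive_stdAddChar q), ZMod.card]
    split_ifs <;> simp
  have hψs : ∀ {ι : Type} (s : Finset ι) (g : ι → ZMod q), ψ (∑ i ∈ s, g i) = ∏ i ∈ s, ψ (g i) := by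
    intro ι s g
    induction s using Finset.induction_on with
    | empty => simp
    | insert a s ha ih => rw [sum_insert ha, prod_insert ha, AddChar.map_add_eq_mul, ih]
  let E := {p : Fin n × Fin n // p.1 < p.2}
  let D : (E → ZMod q) → Fin n → ZMod q := fun f v =>
    ∑ e with e.1.2 = v, f e - ∑ e with e.1.1 = v, f e
  have h1 : (nflow n q : ℂ) * (q : ℂ) ^ n =
      ∑ f ∈ Fintype.piFinset (fun _ : E => (univ.erase 0 : Finset (ZMod q))),
        ∏ v, if D f v = 0 then (q : ℂ) else 0 := by
    simp only [prod_ite_zero, prod_const, card_univ, Fintype.card_fin, ← sum_filter, sum_const,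
      nsmul_eq_mul]
    rw [nflow, Nat.card_eq_fintype_card, Fintype.card_subtype]
    congr 3
    ext f
    simp [D, sub_eq_zero, E]
  have h2 : ∀ (f : E → ZMod q) (c : Fin n → ZMod q),
      ∑ v, c v * D f v = ∑ e, f e * (c e.1.2 - c e.1.1) := by
    intro f c
    simp only [D, mul_sub, sum_sub_distrib, mul_sum, sum_filter]
    congr 1 <;>
    · rw [sum_comm]
      exact sum_congr rfl fun e _ => by simp [mul_comm]
  have h3 : ∀ b : ZMod q, ∑ a ∈ univ.erase 0, ψ (a * b) =
      (-1) * if b = 0 then (1 - q : ℂ) else 1 := by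
    intro b
    have := add_sum_erase univ (fun a => ψ (a * b)) (mem_univ 0)
    rw [hψ] at this
    simp only [zero_mul, AddChar.map_zero_eq_one] at this
    split_ifs at this ⊢ <;> linear_combination this
  have h4 := colour_sum (κ := ZMod q) (1 - q) n 1
  simp only [Pi.one_apply, prod_const_one, one_mul, PowerSeries.rescale_one, RingHom.id_apply,
    prod_const, card_univ, ZMod.card, pow_ee, PowerSeries.coeff_mk] at h4
  rw [h1, mul_assoc, ← h4, mul_sum]
  simp only [← hψ, Fintype.prod_sum, ← hψs, h2]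
  rw [sum_comm]
  refine sum_congr rfl fun c _ => ?_
  simp only [hψs]
  rw [← prod_univ_sum (fun _ : E => (univ.erase 0 : Finset (ZMod q)))
    (fun e a => ψ (a * (c e.1.2 - c e.1.1)))]
  simp only [h3, prod_mul_distrib, sub_eq_zero, eq_comm]
  rw [prod_edges n fun _ _ => (-1 : ℂ), prod_tri,
    prod_edges n fun i j => if c i = c j then (1 - q : ℂ) else 1]

open PowerSeries in
theorem w_rec (q y : ℂ) (n : ℕ) :
    ∑ k ∈ range (n + 1), (n.choose k : ℂ) * y ^ k.choose 2 *
        ((n - k + 1).factorial * WW q y (n - k + 1)) =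
      q * ∑ k ∈ range (n + 1), (n.choose k : ℂ) * y ^ (k + 1).choose 2 *
        ((n - k).factorial * WW q y (n - k)) := by
  have h : mk (ee y) * d⁄dX ℂ (mk (WW q y)) = C q * (d⁄dX ℂ (mk (ee y)) * mk (WW q y)) := by
    rw [ps_WW, ps_logderiv]; ring
  have h1 := congrArg (fun A => (n.factorial : ℂ) * coeff n A) h
  simp only [coeff_C_mul] at h1
  simp only [coeff_mul, Nat.sum_antidiagonal_eq_sum_range_succ_mk, coeff_derivative,
    coeff_mk, mul_sum] at h1
  rw [mul_sum]
  refine (sum_congr rfl fun k hk => ?_).trans (h1.trans (sum_congr rfl fun k hk => ?_))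
  all_goals
    have h2 : (n.factorial : ℂ) = n.choose k * k.factorial * (n - k).factorial := by
      exact_mod_cast (Nat.choose_mul_factorial_mul_factorial (Nat.lt_succ_iff.mp (mem_range.mp hk))).symm
    have h3 : (k.factorial : ℂ) ≠ 0 := by exact_mod_cast k.factorial_ne_zero
    have h4 : ((k : ℂ) + 1) ≠ 0 := by exact_mod_cast k.succ_ne_zero
    rw [h2, ee]
    simp only [Nat.factorial_succ]
    push_cast
    field_simp

theorem exists_poly (n : ℕ) :
    ∃ P : Polynomial ℤ, ∀ z : ℂ, Polynomial.aeval z P = n.factorial * WW z (1 - z) n := by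
  induction n using Nat.strong_induction_on with
  | _ n ih =>
    rcases n with _ | n
    · exact ⟨1, fun z => by simp [WW_zero]⟩
    · choose! P hP using ih
      refine ⟨Polynomial.X * ∑ k ∈ range (n + 1), (n.choose k : Polynomial ℤ) *
          (1 - Polynomial.X) ^ (k + 1).choose 2 * P (n - k) -
        ∑ k ∈ range n, (n.choose (k + 1) : Polynomial ℤ) *
          (1 - Polynomial.X) ^ (k + 1).choose 2 * P (n - (k + 1) + 1), fun z => ?_⟩
      have h := w_rec z (1 - z) n
      rw [sum_range_succ'] at h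
      simp only [map_sub, map_mul, map_sum, map_pow, map_natCast, map_one, Polynomial.aeval_X]
      rw [sum_congr rfl fun k hk => by rw [hP (n - k) (by omega)],
        sum_congr rfl (s₁ := range n) fun k hk => by
          rw [hP (n - (k + 1) + 1) (by have := mem_range.mp hk; omega)], ← h]
      simp

theorem X_pow_dvd (n : ℕ) (B : Polynomial ℤ) (h : ∀ q : ℕ, 1 ≤ q → (q : ℤ) ^ n ∣ B.eval (q : ℤ)) :
    Polynomial.X ^ n ∣ B := by
  induction n generalizing B with
  | zero => simp
  | succ n ih =>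
    have h0 : B.eval 0 = 0 := by
      have h1 := (dvd_pow_self _ n.succ_ne_zero).trans (h ((B.eval 0).natAbs + 1) (by omega))
      have h2 := Polynomial.sub_dvd_eval_sub (((B.eval 0).natAbs + 1 : ℕ) : ℤ) 0 B
      rw [sub_zero] at h2
      have h3 := (dvd_sub_right h1).mp h2
      exact Int.eq_zero_of_dvd_of_natAbs_lt_natAbs h3 (by omega)
    obtain ⟨B', rfl⟩ : Polynomial.X ∣ B :=
      Polynomial.X_dvd_iff.mpr (by rwa [Polynomial.coeff_zero_eq_eval_zero])
    rw [pow_succ']
    refine mul_dvd_mul_left _ (ih B' fun q hq => ?_)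
    have := h q hq
    rw [Polynomial.eval_mul, Polynomial.eval_X, pow_succ'] at this
    exact (mul_dvd_mul_iff_left (by exact_mod_cast (by omega : q ≠ 0))).mp this

theorem exists_poly' (n : ℕ) : ∃ B : Polynomial ℤ,
    (∀ z : ℂ, Polynomial.aeval z B = (-1) ^ (n.choose 2) * n.factorial * WW z (1 - z) n) ∧
      ∀ q : ℕ, 1 ≤ q → B.eval (q : ℤ) = nflow n q * (q : ℤ) ^ n := by
  obtain ⟨P, hP⟩ := exists_poly n
  have h : ∀ z : ℂ, Polynomial.aeval z ((-1) ^ (n.choose 2) * P) =
      (-1) ^ (n.choose 2) * n.factorial * WW z (1 - z) n := fun z => by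
    simp [hP, mul_assoc]
  refine ⟨_, h, fun q hq => ?_⟩
  have h1 := h q
  rw [← nflow_mul n q hq, show (q : ℂ) = algebraMap ℤ ℂ q by simp,
    Polynomial.aeval_algebraMap_apply_eq_algebraMap_eval] at h1
  apply Int.cast_injective (α := ℂ)
  simpa using h1

theorem flows_eval (F : ℕ → Polynomial ℤ)
    (hF : ∀ n q : ℕ, 1 ≤ q → (F n).eval (q : ℤ) = nflow n q) (n : ℕ) (z : ℂ) :
    Polynomial.aeval z (F n) * z ^ n = (-1) ^ (n.choose 2) * n.factorial * WW z (1 - z) n := by
  obtain ⟨B, h1, h2⟩ := exists_poly' n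
  have : F n * Polynomial.X ^ n = B := by
    refine Polynomial.eq_of_infinite_eval_eq _ _ (Set.infinite_of_injective_forall_mem
      (f := fun k : ℕ => ((k + 1 : ℕ) : ℤ)) (fun a b h => by simpa using h) fun k => ?_)
    rw [Set.mem_ofPred_eq, h2 _ (by omega), Polynomial.eval_mul, hF _ _ (by omega)]
    simp
  rw [← h1, ← this]
  simp

theorem flows_exists :
    ∃ F : ℕ → Polynomial ℤ, ∀ n q : ℕ, 1 ≤ q → (F n).eval (q : ℤ) = nflow n q := by
  have : ∀ n, ∃ F : Polynomial ℤ, ∀ q : ℕ, 1 ≤ q → F.eval (q : ℤ) = nflow n q := by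
    intro n
    obtain ⟨B, -, h2⟩ := exists_poly' n
    obtain ⟨F, rfl⟩ := X_pow_dvd n B fun q hq => by rw [h2 q hq]; exact dvd_mul_left _ _
    refine ⟨F, fun q hq => ?_⟩
    have := h2 q hq
    rw [Polynomial.eval_mul, Polynomial.eval_pow, Polynomial.eval_X, mul_comm] at this
    exact mul_right_cancel₀ (pow_ne_zero _ (by exact_mod_cast (by omega : q ≠ 0))) this
  choose F hF using this
  exact ⟨F, hF⟩

theorem nflow_one (n : ℕ) (hn : 2 ≤ n) : nflow n 1 = 0 := by
  refine Nat.card_eq_zero.mpr (Or.inl ⟨fun f => ?_⟩)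
  exact f.2.1 ⟨(⟨0, by omega⟩, ⟨1, by omega⟩), by simp⟩ (Subsingleton.elim _ _)

end Pool.Agent.MP_39ed1d_co.H78
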